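import Pool.Agent.MP_bf8c07_an_h89.Mg.Hedge

set_option autoImplicit false
open MeasureTheory
open Pool.Agent.MP_bf8c07_an_h89

namespace Pool.Agent.Results.MP_bf8c07_an.RadialBound

/-- Endpoint gradient bound for the centered maximal function of real or complex radial
Sobolev functions. -/
theorem result (𝕜 : Type*) [RCLike 𝕜] (d : ℕ) (hd : 1 ≤ d) :
    ∃ C : ℝ, ∀ (f : EuclideanSpace ℝ (Fin d) → 𝕜)
      (g : EuclideanSpace ℝ (Fin d) → EuclideanSpace 𝕜 (Fin d)),
      Integrable f → Integrable g → IsWeakGradient f g → IsAERadial f →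
      (∀ x, x ≠ 0 → maximal f x < ⊤) ∧
      ∃ G : EuclideanSpace ℝ (Fin d) → EuclideanSpace ℝ (Fin d),
        IsWeakGradient (fun x => (maximal f x).toReal) G ∧ Integrable G ∧
        ∫ x, ‖G x‖ ≤ C * ∫ x, ‖g x‖ := by
  obtain ⟨n, rfl⟩ : ∃ n, d = n + 1 := ⟨d - 1, by omega⟩
  obtain ⟨C, hC, hG⟩ := global n
  refine ⟨C * 2, fun f g hf hg hw hr => ?_⟩
  obtain ⟨F, a, P, hb, hae⟩ := profile_rc n hr hf hg hw
  obtain ⟨g1, g2, g3⟩ := hG F a P
  obtain ⟨r1, r2, r3, r4⟩ := radial_weak n (measurable_deriv _)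
    (fun x y hx hy => (g1 x y hx hy).2) g2
  have hM : ∀ᵐ x : EuclideanSpace ℝ (Fin (n + 1)),
      (maximal f x).toReal = sp n F (Set.Ioi 0) ‖x‖ := by
    filter_upwards [ae_ne_zero n] with x hx
    rw [maximal_eq n hf P hae hx,
      ENNReal.toReal_ofReal ((P.F0 _).trans (P.F_le (norm_pos_iff.2 hx)))]
  refine ⟨fun x hx => ?_, _, ⟨fun x => ?_, r1.locallyIntegrable, fun φ h1 h2 i => ?_⟩, r1, ?_⟩
  · rw [maximal_eq n hf P hae hx]
    exact ENNReal.ofReal_lt_top
  · obtain ⟨s, hs, hi⟩ := r2 x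
    exact ⟨s, hs, hi.congr (ae_restrict_of_ae (hM.mono fun y hy => hy.symm))⟩
  · have e := r3 φ h1 h2 (EuclideanSpace.single i 1)
    simp only [EuclideanSpace.inner_single_right, one_mul, conj_trivial] at e
    simp only [smul_eq_mul]
    refine (integral_congr_ae (hM.mono fun x hx => ?_)).trans (e.trans ?_)
    · simp only [hx, mul_comm]
    · simp only [mul_comm]
  · rw [r4]
    have h0 := om_pos (n + 1)
    have e1 := mul_le_mul_of_nonneg_left g3
      (by positivity : (0 : ℝ) ≤ (n + 1) * om (n + 1))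
    have e2 := mul_le_mul_of_nonneg_left hb hC
    linarith

end Pool.Agent.Results.MP_bf8c07_an.RadialBound
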